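import Pool.Agent.L7h81.UR.Main

/-!
# The final form for one tuple, and the uniform statements
-/

set_option autoImplicit false
set_option linter.unusedSectionVars false

namespace Pool.Agent.L7h81.UR

open NumberField NumberField.InfinitePlace IsDedekindDomain Filter Topology
open Pool.Agent.W189.NF (aV eV)
open Pool.Agent.K4H55.BI (IQ BF gen gen_span fv ordK)
open Pool.Agent.K4H55.BK (Vals)
open Pool.Agent.L7h15.BK (cv npt)
open Pool.Agent.L7h15.OA (exists_lam int_lam ch_dvd)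
open Pool.Agent.L7h81.UB
open Pool.Agent.L7h82.RL (PK RC CentralValue IsOm emb_two no_real im_ne s_PCK)
open scoped ComplexConjugate

variable {K : Type} [Field K] [NumberField K] [hP : IsPrincipalIdealRing (𝓞 K)] {σ : K →+* ℂ}
  {δ : K} {n : 𝓞 K} {c : Ideal (𝓞 K) → ℂ}

/-- the conclusion -/
structure ConclR (a b : 𝓞 K) (F : Type) [Field F] [NumberField F] [Algebra K F] : Prop where
  ex : ∃ x, CentralValue (cv (algebraMap K F (a : K)) (algebraMap K F (b : K))) x ∧ x ≠ 0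
  ne : ∀ x, CentralValue (cv (algebraMap K F (a : K)) (algebraMap K F (b : K))) x → x ≠ 0
  all : ∀ (x₀ x : ℂ) (Ω₀ Ω : ℝ), CentralValue (cv (a : K) (b : K)) x₀ → IsOm K (a : K) (b : K) Ω₀ →
    CentralValue (cv (algebraMap K F (a : K)) (algebraMap K F (b : K))) x →
    IsOm F (algebraMap K F (a : K)) (algebraMap K F (b : K)) Ω →
    ∃ q : ℚ, q ≠ 0 ∧ x / Ω = q * (x₀ / Ω₀) ^ Module.finrank K F
  per : (∃ Ω₀, IsOm K (a : K) (b : K) Ω₀) →
    ∃ Ω, IsOm F (algebraMap K F (a : K)) (algebraMap K F (b : K)) Ω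

lemma om_ne {F : Type} [Field F] [NumberField F] {a b : F} {Ω : ℝ} (h : IsOm F a b Ω) : Ω ≠ 0 := by
  obtain ⟨e, L, -, rfl⟩ := h
  refine mul_ne_zero ?_ (Finset.prod_ne_zero_iff.2 fun w _ => im_ne (L w))
  have : (discr F : ℝ) ≠ 0 := by exact_mod_cast discr_ne_zero F
  positivity

/-- periods -/
lemma om_ex (h : IQ K σ δ) {a b : K} (F : Type) [Field F] [NumberField F] [Algebra K F]
    (h0 : ∃ Ω₀, IsOm K a b Ω₀) : ∃ Ω, IsOm F (algebraMap K F a) (algebraMap K F b) Ω := by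
  classical
  obtain ⟨Ω₀, e, L, hL, -⟩ := h0
  obtain ⟨w0⟩ : Nonempty (InfinitePlace K) := inferInstance
  obtain ⟨-, -, k2, k3⟩ := hL w0
  -- one pair of periods for each embedding of `K`
  have h1 : ∀ g : K →+* ℂ, ∃ P : PeriodPair, P.g₂ = -4 * g a ∧ P.g₃ = -4 * g b := by
    intro g
    have h2 : g = e w0 ∨ g = (starRingEnd ℂ).comp (e w0) := by
      rcases emb_two h g with h3 | h3 <;> rcases emb_two h (e w0) with h4 | h4
      · exact Or.inl (h3.trans h4.symm)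
      · right
        rw [h4, h3]
        ext x
        simp
      · right
        rw [h4, h3]
      · exact Or.inl (h3.trans h4.symm)
    rcases h2 with h2 | h2
    · exact ⟨L w0, by rw [k2, h2], by rw [k3, h2]⟩
    · refine ⟨L7h65.RL2.cj (L w0), ?_, ?_⟩
      · have e2 : (L7h65.RL2.cj (L w0)).g₂ = conj (L w0).g₂ := by
          unfold PeriodPair.g₂
          rw [L7h65.RL2.cj_G, map_mul, map_ofNat]
        rw [e2, k2, h2, map_mul, map_neg, map_ofNat]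
        rfl
      · have e2 : (L7h65.RL2.cj (L w0)).g₃ = conj (L w0).g₃ := by
          unfold PeriodPair.g₃
          rw [L7h65.RL2.cj_G, map_mul, map_ofNat]
        rw [e2, k3, h2, map_mul, map_neg, map_ofNat]
        rfl
  choose P hP2 hP3 using h1
  refine ⟨_, fun w => w.embedding, fun w => P (w.embedding.comp (algebraMap K F)), fun w =>
    ⟨mk_embedding w, ?_, hP2 _, hP3 _⟩, rfl⟩
  rcases w.isReal_or_isComplex with h2 | h2
  · exfalso
    have h3 := no_real h F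
    unfold nrRealPlaces at h3
    exact (@Fintype.card_eq_zero_iff _ _).1 h3 |>.false ⟨w, h2⟩
  · exact h2

lemma one_pr {G : Type} [CommGroup G] {r : ℕ} (e : Fin r → G) : (1 : G) = ∏ j, e j ^ 0 := by simp

/-- the trivial extension -/
lemma self_rcd (r : ℕ) (e : Fin r → FamK K) : Rcd K e (fun _ => (1 : FamK K)) := by
  have h1 : ∀ t : K ≃ₐ[K] K, t = 1 := fun t => AlgEquiv.ext fun x => t.commutes x
  refine ⟨fun ψ => ⟨fun _ => 0, one_pr (G := FamK K) e⟩, fun ψ v hv => absurd rfl hv, fun ψ v _ u _ t _ => ?_, ?_⟩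
  · rw [h1 t, map_one]
    unfold va
    rw [sp_one]
    unfold vl
    simp
  · rw [Module.finrank_self, pow_one]
    have h2 : NC (1 : FamK K) = 1 := by
      unfold NC
      rw [sp_one, Finset.prod_empty]
    simp [h2]

open Classical in
/-- **the conclusion for a tuple** -/
theorem concl (h : IQ K σ δ) (hf : BF σ δ n c)
    {l k : ℕ} (hl : l.Prime) {a b : 𝓞 K} (hΔ : 4 * a ^ 3 + 27 * b ^ 2 ≠ 0)
    (hloc : ∀ v : HeightOneSpectrum (𝓞 K), c v.asIdeal = (aV (cv (a : K) (b : K)) v : ℂ) ∧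
      (eV (cv (a : K) (b : K)) v : ℂ) = if n ∈ v.asIdeal then 0 else (Ideal.absNorm v.asIdeal : ℂ))
    {ω : ℂ} (hω' : ω ∈ AddSubgroup.closure (Vals σ δ n c))
    (hω : ∀ l ∈ AddSubgroup.closure (Vals σ δ n c), ∃ j : ℤ, l = j * ω)
    (h0 : fv (ordK h) (fun x => c (Ideal.span {x})) 0 ≠ 0)
    {r : ℕ} {e : Fin r → FamK K} (H1 : Subgroup (FamK K))
    (he : ∀ j, e j ∈ H1) (hpow : ∀ x ∈ H1, x ^ (l ^ k) = 1) (hfin : ∀ x ∈ H1, {v | x v ≠ 1}.Finite)
    (hunit : ∀ x ∈ H1, ∀ u : 𝓞 K, IsUnit u → va x u = 1)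
    (hadm : ∀ x ∈ H1, ∀ v : HeightOneSpectrum (𝓞 K), x v ≠ 1 →
      2 * (4 * a ^ 3 + 27 * b ^ 2) ∉ v.asIdeal)
    (hnv : ∀ J : Fin r → ℕ, btK (ordK h) (fv (ordK h) (fun x => c (Ideal.span {x})))
      (∏ j, e j ^ J j) ≠ 0)
    {F : Type} [Field F] [NumberField F] [Algebra K F] [IsGalois K F]
    (hab : ∀ s t : F ≃ₐ[K] F, s * t = t * s) {E : ((F ≃ₐ[K] F) →* ℂˣ) → FamK K} (hE : Rcd F e E) :
    ConclR a b F := by
  classical
  obtain ⟨hR, hn, hne⟩ := one_fieldR h hf hl hΔ hloc H1 he hpow hfin hunit hadm hnv hab hE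
  have hone : (1 : FamK K) ∈ H1 := H1.one_mem
  have hK1 : ∀ t : K ≃ₐ[K] K, t = 1 := fun t => AlgEquiv.ext fun x => t.commutes x
  have habK : ∀ s t : K ≃ₐ[K] K, s * t = t * s := fun s t => by rw [hK1 s, hK1 t]
  obtain ⟨hR', hn', hne'⟩ := one_fieldR h hf hl hΔ hloc (e := fun _ : Fin 0 => (1 : FamK K)) H1
    (fun j => j.elim0) hpow hfin hunit hadm (fun J => by
      have : ∏ j : Fin 0, (1 : FamK K) ^ J j = 1 := by simp
      rw [this, btK_one]
      exact h0) (F := K) habK (self_rcd 0 _)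
  obtain ⟨τ, hτ, hfn⟩ := L7h82.RL.fin h hf hΔ hloc hω' hω
  obtain ⟨k1, k2⟩ := hfn F hab _ _ hR hn (by
    rw [hE.disc]
    congr 1
    refine finprod_congr fun ψ => ?_
    rw [norm_cf])
  obtain ⟨k1', k2'⟩ := hfn K habK _ _ hR' hn' (by
    refine (self_rcd 0 (fun _ : Fin 0 => (1 : FamK K))).disc.trans ?_
    congr 1
    refine finprod_congr fun ψ => ?_
    rw [norm_cf])
  refine ⟨?_, hne, fun x₀ x Ω₀ Ω hx₀ hΩ₀ hx hΩ => ?_, om_ex h F⟩
  · obtain ⟨x, hx⟩ := k1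
    exact ⟨x, hx, hne x hx⟩
  · have hx1 := hne x hx
    have hx2 : x₀ ≠ 0 := hne' x₀ hx₀
    obtain ⟨q, hq⟩ := k2 x Ω hx hΩ
    obtain ⟨q', hq'⟩ := k2' x₀ Ω₀ hx₀ hΩ₀
    rw [Module.finrank_self, pow_one] at hq'
    have hτ0 : (τ : ℂ) ≠ 0 := by exact_mod_cast hτ.ne'
    have hq0 : (q : ℂ) ≠ 0 := fun h1 => hx1 (by rw [hq, h1]; ring)
    have hq0' : (q' : ℂ) ≠ 0 := fun h1 => hx2 (by rw [hq', h1]; ring)
    have hΩ1 : (Ω : ℂ) ≠ 0 := fun h1 => hx1 (by rw [hq, h1]; ring)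
    have hΩ1' : (Ω₀ : ℂ) ≠ 0 := fun h1 => hx2 (by rw [hq', h1]; ring)
    refine ⟨q / q' ^ Module.finrank K F, ?_, ?_⟩
    · have h1 : q ≠ 0 := by exact_mod_cast hq0
      have h2 : q' ≠ 0 := by exact_mod_cast hq0'
      exact div_ne_zero h1 (pow_ne_zero _ h2)
    · rw [hq, hq']
      push_cast
      have e1 : (q' : ℂ) * Ω₀ * τ / Ω₀ = q' * τ := by field_simp
      rw [e1, mul_pow]
      field_simp

section main

open Classical in
/-- **Uniform proportions.** -/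
theorem uniR (h : IQ K σ δ) {m : ℕ} (a b n : Fin m → 𝓞 K)
    (c : Fin m → Ideal (𝓞 K) → ℂ) (hΔ : ∀ i, 4 * a i ^ 3 + 27 * b i ^ 2 ≠ 0)
    (hf : ∀ i, BF σ δ (n i) (c i))
    (hloc : ∀ i, ∀ v : HeightOneSpectrum (𝓞 K),
      c i v.asIdeal = (aV (cv (a i : K) (b i : K)) v : ℂ) ∧
      (eV (cv (a i : K) (b i : K)) v : ℂ) =
        if n i ∈ v.asIdeal then 0 else (Ideal.absNorm v.asIdeal : ℂ))
    (hω : ∀ i, ∃ ω ∈ AddSubgroup.closure (Vals σ δ (n i) (c i)),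
      ∀ l ∈ AddSubgroup.closure (Vals σ δ (n i) (c i)), ∃ j : ℤ, l = j * ω)
    (h0 : ∀ i, ∃ x, CentralValue (cv (a i : K) (b i : K)) x ∧ x ≠ 0)
    {l : ℕ} (hl : l.Prime) (k r : ℕ) :
    ∃ V : ℕ, ∀ H : Subgroup (FamK K), HR l k a b H →
      ∃ KK : Finset (Fin r → FamK K), KK.card ≤ 2 ^ V ∧ (∀ x ∈ KK, ∀ j, x j ∈ H) ∧
        ∀ e : Fin r → FamK K, (∀ j, e j ∈ H) → ∃ x ∈ KK,
          ∀ (F : Type) [Field F] [NumberField F] [Algebra K F] [IsGalois K F],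
            (∀ s t : F ≃ₐ[K] F, s * t = t * s) →
            (∃ E, Rcd F (fun j => e j * x j) E) → ∀ i, ConclR (a i) (b i) F := by
  classical
  rcases Nat.eq_zero_or_pos m with hm | hm
  · subst hm
    refine ⟨0, fun H _ => ⟨{1}, by simp, fun x hx j => ?_, fun e _ => ⟨1, Finset.mem_singleton_self 1,
      fun F _ _ _ _ _ _ i => i.elim0⟩⟩⟩
    rw [Finset.mem_singleton.1 hx]
    exact H.one_mem
  obtain ⟨lam, hlam, hmemL⟩ := exists_lam hl
  choose C w κ κW hN using fun i => (hf i).newf h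
  have hMG := fun i => (hN i).mg
  have hfv : ∀ i, fv (ordK h) (fun x => c i (Ideal.span {x})) 0 ≠ 0 := fun i => by
    obtain ⟨x, hx, hx0⟩ := h0 i
    exact fv_ne' h (hf i) (hloc i) hx hx0
  obtain ⟨V, hV⟩ := tuplesK (nn := n) (cc := fun i x => c i (Ideal.span {x})) hMG hfv hl k lam hlam
    hmemL r
  refine ⟨V, fun H hH => ?_⟩
  obtain ⟨KK, h4, h5, h6⟩ := hV H (okR hm hloc hl hlam hmemL hH)
  refine ⟨KK, h4, h5, fun e he => ?_⟩
  obtain ⟨x, hx, h7⟩ := h6 e he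
  refine ⟨x, hx, fun F _ _ _ _ hab hE i => ?_⟩
  obtain ⟨E, hE⟩ := hE
  obtain ⟨ω, hω1, hω2⟩ := hω i
  exact concl h (hf i) hl (hΔ i) (hloc i) hω1 hω2 (hfv i) H
    (fun j => H.mul_mem (he j) (h5 x hx j)) hH.pow hH.fin hH.unit
    (fun y hy v hv => (hH.adm y hy v hv i).1) (fun J => h7 J i) hab hE

open Classical in
/-- **Infinite groups.** -/
theorem infR (h : IQ K σ δ) {m : ℕ} (a b n : Fin m → 𝓞 K)
    (c : Fin m → Ideal (𝓞 K) → ℂ) (hΔ : ∀ i, 4 * a i ^ 3 + 27 * b i ^ 2 ≠ 0)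
    (hf : ∀ i, BF σ δ (n i) (c i))
    (hloc : ∀ i, ∀ v : HeightOneSpectrum (𝓞 K),
      c i v.asIdeal = (aV (cv (a i : K) (b i : K)) v : ℂ) ∧
      (eV (cv (a i : K) (b i : K)) v : ℂ) =
        if n i ∈ v.asIdeal then 0 else (Ideal.absNorm v.asIdeal : ℂ))
    (hω : ∀ i, ∃ ω ∈ AddSubgroup.closure (Vals σ δ (n i) (c i)),
      ∀ l ∈ AddSubgroup.closure (Vals σ δ (n i) (c i)), ∃ j : ℤ, l = j * ω)
    (h0 : ∀ i, ∃ x, CentralValue (cv (a i : K) (b i : K)) x ∧ x ≠ 0)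
    {l : ℕ} (hl : l.Prime) (k : ℕ) (H : Subgroup (FamK K)) (hH : HR l k a b H)
    (hinf : (H : Set (FamK K)).Infinite) :
    ∃ H0 : Subgroup (FamK K), H0 ≤ H ∧ (H0 : Set (FamK K)).Infinite ∧
      ∀ (r : ℕ) (e : Fin r → FamK K), (∀ j, e j ∈ H0) →
        ∀ (F : Type) [Field F] [NumberField F] [Algebra K F] [IsGalois K F],
            (∀ s t : F ≃ₐ[K] F, s * t = t * s) →
            (∃ E, Rcd F e E) → ∀ i, ConclR (a i) (b i) F := by
  classical
  rcases Nat.eq_zero_or_pos m with hm | hm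
  · subst hm
    exact ⟨H, le_rfl, hinf, fun r e _ F _ _ _ _ _ _ i => i.elim0⟩
  obtain ⟨lam, hlam, hmemL⟩ := exists_lam hl
  choose C w κ κW hN using fun i => (hf i).newf h
  have hMG := fun i => (hN i).mg
  have hfv : ∀ i, fv (ordK h) (fun x => c i (Ideal.span {x})) 0 ≠ 0 := fun i => by
    obtain ⟨x, hx, hx0⟩ := h0 i
    exact fv_ne' h (hf i) (hloc i) hx hx0
  obtain ⟨H0, h4, h5, h6⟩ := infiniteK (nn := n) (cc := fun i x => c i (Ideal.span {x})) hMG hfv hl k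
    lam hlam hmemL H (okR hm hloc hl hlam hmemL hH) hinf
  refine ⟨H0, h4, h5, fun r e he F _ _ _ _ hab hE i => ?_⟩
  obtain ⟨E, hE⟩ := hE
  obtain ⟨ω, hω1, hω2⟩ := hω i
  exact concl h (hf i) hl (hΔ i) (hloc i) hω1 hω2 (hfv i) H
    (fun j => h4 (he j)) hH.pow hH.fin hH.unit
    (fun y hy v hv => (hH.adm y hy v hv i).1)
    (fun J => h6 _ (prod_pow_mem (G := FamK K) H0 e he J) i) hab hE

end main

end Pool.Agent.L7h81.UR
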