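import Pool.Agent.L7h82.RL.Fin
import Pool.Agent.L7h81.UB.Lv
import Pool.Agent.L7h81.UB.Inf

/-!
# Families of local characters and primitive characters of squarefree conductor
-/

set_option autoImplicit false
set_option linter.unusedSectionVars false

namespace Pool.Agent.L7h81.UR

open NumberField IsDedekindDomain Filter Topology
open Pool.Agent.L7h81.UB
open Pool.Agent.L7h82.RL (PK RC)
open Pool.Agent.L7h15.OA (CHl)

variable {K : Type} [Field K] [NumberField K]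

/-- the product of the places -/
noncomputable def cf (T : Finset (HeightOneSpectrum (𝓞 K))) : Ideal (𝓞 K) := ∏ v ∈ T, v.asIdeal

lemma le_of {v v' : HeightOneSpectrum (𝓞 K)} (h : v.asIdeal ≤ v'.asIdeal) : v = v' :=
  HeightOneSpectrum.ext (v.isMaximal.eq_of_le v'.isPrime.ne_top h)

lemma cf_le (T : Finset (HeightOneSpectrum (𝓞 K))) (v : HeightOneSpectrum (𝓞 K)) :
    cf T ≤ v.asIdeal ↔ v ∈ T := by
  unfold cf
  rw [v.isPrime.prod_le]
  constructor
  · rintro ⟨v', hv', h⟩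
    rw [← le_of h]
    exact hv'
  · intro h
    exact ⟨v, h, le_rfl⟩

lemma cf_ne (T : Finset (HeightOneSpectrum (𝓞 K))) : cf T ≠ ⊥ := by
  unfold cf
  rw [← Ideal.zero_eq_bot, Finset.prod_ne_zero_iff]
  intro v _
  rw [Ideal.zero_eq_bot]
  exact v.ne_bot

lemma mem_cf {T : Finset (HeightOneSpectrum (𝓞 K))} {x : 𝓞 K} (h : ∀ v ∈ T, x ∈ v.asIdeal) :
    x ∈ cf T := by
  classical
  unfold cf
  rw [Ideal.prod_eq_iInf_of_pairwise_isCoprime]
  · simp only [Ideal.mem_iInf]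
    exact h
  · intro v _ v' _ hne
    exact Ideal.isCoprime_of_isMaximal (fun h => hne (HeightOneSpectrum.ext h))

/-- the absolute norm -/
lemma norm_cf (e : FamK K) : Ideal.absNorm (cf (sp e)) = NC e := by
  unfold cf NC
  rw [map_prod]

/-- **the character of a family is primitive** -/
theorem pk_of {l : ℕ} {T : Finset (HeightOneSpectrum (𝓞 K))} {χ : 𝓞 K → ℂ} (h : CHl l T χ) :
    PK (cf T) χ := by
  classical
  refine ⟨cf_ne T, h.one, h.mul, fun x => ?_, fun x y hxy => ?_, h.unit, fun 𝔡 h𝔡 => ?_⟩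
  · rw [h.zero]
    constructor
    · rintro ⟨v, hv, hx⟩
      exact ⟨v, (cf_le T v).2 hv, hx⟩
    · rintro ⟨v, hv, hx⟩
      exact ⟨v, (cf_le T v).1 hv, hx⟩
  · exact h.prd x y fun v hv => (cf_le T v).2 hv hxy
  · obtain ⟨𝔢, h𝔢⟩ := Ideal.dvd_iff_le.2 h𝔡.le
    have h1 : 𝔢 ≠ ⊤ := by
      rintro rfl
      rw [Ideal.mul_top] at h𝔢
      exact h𝔡.ne h𝔢
    have h2 : 𝔢 ≠ ⊥ := by
      rintro rfl
      rw [Ideal.mul_bot] at h𝔢
      exact cf_ne T h𝔢
    obtain ⟨m, hm, hle⟩ := Ideal.exists_le_maximal _ h1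
    have hm0 : m ≠ ⊥ := by
      rintro rfl
      exact h2 (le_bot_iff.1 hle)
    let v : HeightOneSpectrum (𝓞 K) := ⟨m, hm.isPrime, hm0⟩
    have hvT : v ∈ T := by
      rw [← cf_le, h𝔢]
      exact Ideal.mul_le_right.trans hle
    obtain ⟨x, hx1, hx2, hx3⟩ := h.prim v hvT
    refine ⟨x, ?_, hx2, hx3⟩
    obtain ⟨𝔤, h𝔤⟩ := Ideal.dvd_iff_le.2 hle
    have h3 : cf (T.erase v) = 𝔡 * 𝔤 := by
      have h4 : v.asIdeal * cf (T.erase v) = v.asIdeal * (𝔡 * 𝔤) := by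
        have h5 : v.asIdeal * cf (T.erase v) = cf T := Finset.mul_prod_erase T _ hvT
        rw [h5, h𝔢, h𝔤]
        show 𝔡 * (m * 𝔤) = m * (𝔡 * 𝔤)
        ring
      exact mul_left_cancel₀ (show v.asIdeal ≠ 0 from v.ne_bot) h4
    have h4 : x - 1 ∈ cf (T.erase v) := mem_cf fun v' hv' =>
      hx1 v' (Finset.mem_of_mem_erase hv') (Finset.ne_of_mem_erase hv')
    rw [h3] at h4
    exact (Ideal.mul_le_left : 𝔡 * 𝔤 ≤ 𝔡) h4

end Pool.Agent.L7h81.UR
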