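import Pool.Agent.L7h81.UR.Conv

/-!
# The nonvanishing and rationality of the central values over the fields of a tuple
-/

set_option autoImplicit false
set_option linter.unusedSectionVars false

namespace Pool.Agent.L7h81.UR

open NumberField NumberField.InfinitePlace IsDedekindDomain Filter Topology
open Pool.Agent.W189.NF (aV eV)
open Pool.Agent.H921R2.TatePole (nm)
open Pool.Agent.K4H55.BI (IQ BF gen gen_span fv ordK)
open Pool.Agent.K4H55.BK (Vals)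
open Pool.Agent.K4H55.CX (efx)
open Pool.Agent.L7h15.BK (cv npt efx_eq tpol_eq HB hb_place nm_two LSeries_hasProdB)
open Pool.Agent.L7h15.OA (exists_lam int_lam ch_dvd)
open Pool.Agent.L7h81.UB
open Pool.Agent.L7h82.RL (PK RC CentralValue IsOm emb_two no_real im_ne s_PCK)
open scoped ComplexConjugate

variable {K : Type} [Field K] [NumberField K] [hP : IsPrincipalIdealRing (𝓞 K)] {σ : K →+* ℂ}
  {δ : K} {n : 𝓞 K} {c : Ideal (𝓞 K) → ℂ}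

open Classical in
/-- the value at the cusp `0` is not zero -/
theorem fv_ne' (h : IQ K σ δ) (hf : BF σ δ n c) {a b : 𝓞 K}
    (hloc : ∀ v : HeightOneSpectrum (𝓞 K), c v.asIdeal = (aV (cv (a : K) (b : K)) v : ℂ) ∧
      (eV (cv (a : K) (b : K)) v : ℂ) = if n ∈ v.asIdeal then 0 else (Ideal.absNorm v.asIdeal : ℂ))
    {x : ℂ} (hx : CentralValue (cv (a : K) (b : K)) x) (hx0 : x ≠ 0) :
    fv (ordK h) (fun x => c (Ideal.span {x})) 0 ≠ 0 := by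
  classical
  obtain ⟨U, Φ, -, hUc, hUs, h1U, hΦ, hΦs, rfl⟩ := hx
  have he : (1 : FamK K) ^ 3 ^ 0 = 1 := one_pow (M := FamK K) _
  have hfin : {v | (1 : FamK K) v ≠ 1}.Finite := by
    have : {v | (1 : FamK K) v ≠ 1} = ∅ := by
      ext v
      simp
    rw [this]
    exact Set.finite_empty
  obtain ⟨G, g1, g2, g3⟩ := val_iff h hf Nat.prime_three (k := 0) he hfin
    (fun u _ => by rw [sp_one]; unfold vl; simp)
    (by rw [sp_one]; intro v hv; exact absurd hv (Finset.notMem_empty v))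
  have e0 : (1 : FamK K)⁻¹ = 1 := _root_.inv_one (G := FamK K)
  rw [e0, btK_one] at g3
  apply g3.1
  have hHK : ∀ v : HeightOneSpectrum (𝓞 K), HB (aV (cv (a : K) (b : K)) v)
      (eV (cv (a : K) (b : K)) v) (nm v) := by
    intro v
    refine hb_place _ v ?_
    by_cases h2 : (2 : 𝓞 K) ∈ v.asIdeal
    · exact Or.inr (nm_two h.deg h2)
    · exact Or.inl h2
  have key : ∀ s : ℂ, 2 < s.re → G s = Φ s := by
    intro s hs
    have h1 := (LSeries_hasProdB (cv (a : K) (b : K)) hHK (s := s) (by linarith)).2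
    rw [hΦs s (by linarith)]
    refine (g2 s hs).unique ?_
    refine h1.congr_fun fun v => ?_
    have hz : vl (1 : FamK K) (sp (1 : FamK K)) (gen v) = 1 := by
      rw [sp_one]; unfold vl; simp
    rw [efx_eq, tpol_eq _ v s (hloc v).1 (hloc v).2, hz, one_mul]
    rfl
  have h3U : (3 : ℂ) ∈ U := hUs (by
    show (2 : ℝ) < (3 : ℂ).re
    norm_num)
  have h4 : G =ᶠ[𝓝 (3 : ℂ)] Φ := by
    have h5 : {s : ℂ | (2 : ℝ) < s.re} ∈ 𝓝 (3 : ℂ) :=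
      (isOpen_lt continuous_const Complex.continuous_re).mem_nhds (by
        show (2 : ℝ) < (3 : ℂ).re
        norm_num)
    filter_upwards [h5] with s hs using key s hs
  have h5 : Set.EqOn G Φ U := AnalyticOnNhd.eqOn_of_preconnected_of_eventuallyEq
    (fun s _ => g1.analyticAt s) hΦ hUc.isPreconnected h3U h4
  rw [h5 h1U]
  exact hx0

/-- the inverse of a product of powers -/
lemma inv_pr {G : Type} [CommGroup G] {r N : ℕ} (hN : 0 < N) (e : Fin r → G) (J : Fin r → ℕ)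
    (h : (∏ j, e j ^ J j) ^ N = 1) : (∏ j, e j ^ J j)⁻¹ = ∏ j, e j ^ (J j * (N - 1)) := by
  have h1 : ∏ j, e j ^ (J j * (N - 1)) = (∏ j, e j ^ J j) ^ (N - 1) := by
    rw [← Finset.prod_pow]
    exact Finset.prod_congr rfl fun j _ => pow_mul _ _ _
  rw [h1, inv_eq_iff_mul_eq_one, ← pow_succ', Nat.sub_add_cancel hN, h]

/-- the groups of characters -/
structure HR (l k : ℕ) {m : ℕ} (a b : Fin m → 𝓞 K) (H : Subgroup (FamK K)) : Prop where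
  pow : ∀ e ∈ H, e ^ (l ^ k) = 1
  fin : ∀ e ∈ H, {v | e v ≠ 1}.Finite
  unit : ∀ e ∈ H, ∀ u : 𝓞 K, IsUnit u → va e u = 1
  adm : ∀ e ∈ H, ∀ v : HeightOneSpectrum (𝓞 K), e v ≠ 1 → ∀ i,
    2 * (4 * a i ^ 3 + 27 * b i ^ 2) ∉ v.asIdeal ∧
    ¬ l ∣ npt (Ideal.Quotient.mk v.asIdeal (a i)) (Ideal.Quotient.mk v.asIdeal (b i)) + 1

open Classical in
lemma okR {m : ℕ} (hm : 0 < m) {a b n : Fin m → 𝓞 K} {c : Fin m → Ideal (𝓞 K) → ℂ}
    (hloc : ∀ i, ∀ v : HeightOneSpectrum (𝓞 K),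
      c i v.asIdeal = (aV (cv (a i : K) (b i : K)) v : ℂ) ∧
      (eV (cv (a i : K) (b i : K)) v : ℂ) =
        if n i ∈ v.asIdeal then 0 else (Ideal.absNorm v.asIdeal : ℂ))
    {l : ℕ} (hl : l.Prime) {k : ℕ} {lam : Ideal (integralClosure ℤ ℂ)} (hlam : lam.IsPrime)
    (hmemL : (l : integralClosure ℤ ℂ) ∈ lam)
    {H : Subgroup (FamK K)} (hH : HR l k a b H) :
    Ok H (l ^ k) (AdK n (fun i x => c i (Ideal.span {x})) lam) := by
  refine ⟨hH.pow, hH.fin, fun e he v hv => ?_⟩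
  have had := hH.adm e he v hv
  refine ⟨fun h4 => (had ⟨0, hm⟩).1 (v.asIdeal.mul_mem_right _ h4), fun i =>
    ⟨(loc_lev (hloc i) v (had i).1).1, fun x hx hxe => ?_⟩⟩
  have hc := chl_of (hH.pow e he) (hH.fin e he) (hH.unit e he)
  have hdv := ch_dvd hl hc ((mem_sp (hH.fin e he) v).2 hv)
  obtain ⟨m', hm1, hm2⟩ := coef_ne (hloc i) (had i).1 (had i).2 hdv
  apply hm2
  refine int_lam lam hlam hl hmemL hx ?_
  simp only [gen_span] at hxe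
  rw [hxe, hm1]
  push_cast
  ring

/-- the law of reciprocity for the fields of a tuple, and the formula for conductors and discriminants -/
structure Rcd (F : Type) [Field F] [NumberField F] [Algebra K F] {r : ℕ} (c : Fin r → FamK K)
    (E : ((F ≃ₐ[K] F) →* ℂˣ) → FamK K) : Prop where
  gens : ∀ ψ, ∃ J : Fin r → ℕ, E ψ = ∏ j, c j ^ J j
  ram : ∀ ψ, ∀ v : HeightOneSpectrum (𝓞 K), E ψ v ≠ 1 → ∀ u : HeightOneSpectrum (𝓞 F),
      u.asIdeal.comap (algebraMap (𝓞 K) (𝓞 F)) = v.asIdeal →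
      ∃ t : F ≃ₐ[K] F, (∀ x : 𝓞 F, t • x - x ∈ u.asIdeal) ∧ ψ t ≠ 1
  frob : ∀ ψ, ∀ v : HeightOneSpectrum (𝓞 K), E ψ v = 1 → ∀ u : HeightOneSpectrum (𝓞 F),
      u.asIdeal.comap (algebraMap (𝓞 K) (𝓞 F)) = v.asIdeal →
      ∀ t : F ≃ₐ[K] F, (∀ x : 𝓞 F, t • x - x ^ Ideal.absNorm v.asIdeal ∈ u.asIdeal) →
        (ψ t : ℂ) = va (E ψ) (gen v)
  disc : |(discr F : ℝ)| = |(discr K : ℝ)| ^ Module.finrank K F * ∏ᶠ ψ, (NC (E ψ) : ℝ)

open Classical in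
/-- **one field**: the characters, and the nonvanishing -/
theorem one_fieldR (h : IQ K σ δ) (hf : BF σ δ n c)
    {l k : ℕ} (hl : l.Prime) {a b : 𝓞 K} (hΔ : 4 * a ^ 3 + 27 * b ^ 2 ≠ 0)
    (hloc : ∀ v : HeightOneSpectrum (𝓞 K), c v.asIdeal = (aV (cv (a : K) (b : K)) v : ℂ) ∧
      (eV (cv (a : K) (b : K)) v : ℂ) = if n ∈ v.asIdeal then 0 else (Ideal.absNorm v.asIdeal : ℂ))
    {r : ℕ} {e : Fin r → FamK K} (H1 : Subgroup (FamK K))
    (he : ∀ j, e j ∈ H1) (hpow : ∀ x ∈ H1, x ^ (l ^ k) = 1) (hfin : ∀ x ∈ H1, {v | x v ≠ 1}.Finite)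
    (hunit : ∀ x ∈ H1, ∀ u : 𝓞 K, IsUnit u → va x u = 1)
    (hadm : ∀ x ∈ H1, ∀ v : HeightOneSpectrum (𝓞 K), x v ≠ 1 →
      2 * (4 * a ^ 3 + 27 * b ^ 2) ∉ v.asIdeal)
    (hnv : ∀ J : Fin r → ℕ, btK (ordK h) (fv (ordK h) (fun x => c (Ideal.span {x})))
      (∏ j, e j ^ J j) ≠ 0)
    {F : Type} [Field F] [NumberField F] [Algebra K F] [IsGalois K F]
    (hab : ∀ s t : F ≃ₐ[K] F, s * t = t * s) {E : ((F ≃ₐ[K] F) →* ℂˣ) → FamK K} (hE : Rcd F e E) :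
    (∀ ψ, RC ψ (cf (sp (E ψ))) (vl (E ψ) (sp (E ψ)))) ∧
    (∀ ψ, ∀ v : HeightOneSpectrum (𝓞 K), cf (sp (E ψ)) ≤ v.asIdeal → n ∉ v.asIdeal) ∧
    ∀ x, CentralValue (cv (algebraMap K F (a : K)) (algebraMap K F (b : K))) x → x ≠ 0 := by
  classical
  choose J hJ using hE.gens
  have hEH : ∀ ψ, E ψ ∈ H1 := fun ψ => by
    rw [hJ]
    exact prod_pow_mem (G := FamK K) H1 e he (J ψ)
  have hmem : ∀ ψ v, v ∈ sp (E ψ) ↔ E ψ v ≠ 1 := fun ψ v => mem_sp (hfin _ (hEH ψ)) v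
  have hR : ∀ ψ, RC ψ (cf (sp (E ψ))) (vl (E ψ) (sp (E ψ))) := fun ψ =>
    ⟨pk_of (chl_of (hpow _ (hEH ψ)) (hfin _ (hEH ψ)) (hunit _ (hEH ψ))),
      fun v hv u hu => hE.ram ψ v ((hmem ψ v).1 ((cf_le _ v).1 hv)) u hu,
      fun v hv u hu t ht => hE.frob ψ v (by
        by_contra hne
        exact hv ((cf_le _ v).2 ((hmem ψ v).2 hne))) u hu t ht⟩
  have hG2 : ∀ ψ, Gd2 n (sp (E ψ)) := fun ψ v hv => by
    have h3 := hadm _ (hEH ψ) v ((hmem ψ v).1 hv)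
    exact ⟨fun h4 => h3 (v.asIdeal.mul_mem_right _ h4), (loc_lev hloc v h3).1⟩
  refine ⟨hR, fun ψ v hv => (hG2 ψ v ((cf_le _ v).1 hv)).2, fun x hx => ?_⟩
  have hinv : ∀ ψ, (E ψ)⁻¹ = ∏ j, e j ^ (J ψ j * (l ^ k - 1)) := fun ψ => by
    rw [hJ]
    exact inv_pr (G := FamK K) (pow_pos hl.pos k) e (J ψ) (by rw [← hJ]; exact hpow _ (hEH ψ))
  choose G g1 g2 g3 using fun ψ => nonv h hf hl (hpow _ (hEH ψ)) (hfin _ (hEH ψ))
    (hunit _ (hEH ψ)) (hG2 ψ) (by rw [hinv]; exact hnv _)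
  have hfinG : Finite ((F ≃ₐ[K] F) →* ℂˣ) := by
    refine Nat.finite_of_card_ne_zero ?_
    let _ : CommGroup (F ≃ₐ[K] F) := { (inferInstance : Group (F ≃ₐ[K] F)) with mul_comm := hab }
    have e := CommGroup.card_monoidHom_of_hasEnoughRootsOfUnity (F ≃ₐ[K] F) ℂ
    have e2 : 0 < Nat.card (F ≃ₐ[K] F) := Nat.card_pos
    intro h0
    have e3 : Nat.card ((F ≃ₐ[K] F) →* ℂˣ) = Nat.card (F ≃ₐ[K] F) := e
    omega
  have : Fintype ((F ≃ₐ[K] F) →* ℂˣ) := Fintype.ofFinite _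
  obtain ⟨r, hr0, hr⟩ := L7h60.RL.s_LS s_PCK L7h50.RL.s_CYC L7h50.RL.s_POW L7h50.RL.s_RAT
    L7h60.RL.s_CLS K F σ δ n a b c h hΔ hloc hab (fun ψ => cf (sp (E ψ)))
    (fun ψ => vl (E ψ) (sp (E ψ))) hR G g1 g2
  rw [(hr x).1 hx]
  exact mul_ne_zero (by exact_mod_cast hr0) (Finset.prod_ne_zero_iff.2 fun ψ _ => g3 ψ)

end Pool.Agent.L7h81.UR
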